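import Mathlib
import Pool.Agent.R159.RankTwoD

set_option autoImplicit false

/-!
# MP_b53101_co: rank-two groups with a two-element signed `s`-spanning set
-/

namespace Pool.Agent.Results.MP_b53101_co.RankTwoCriterion

/-- `[0,s]_± A`: the set of the sums `∑ λ_a a` over `a ∈ A`, with integer coefficients satisfying
`∑ |λ_a| ≤ s`. -/
def signedSums {G : Type*} [AddCommGroup G] (s : ℕ) (A : Finset G) : Set G :=
  {g | ∃ c : G → ℤ, ∑ a ∈ A, |c a| ≤ s ∧ ∑ a ∈ A, c a • a = g}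

/-- `φ_±(G,[0,s])`: the least size of a subset `A` of `G` with `[0,s]_± A = G`. -/
noncomputable def phi (G : Type*) [AddCommGroup G] (s : ℕ) : ℕ :=
  sInf {m : ℕ | ∃ A : Finset G, A.card = m ∧ signedSums s A = Set.univ}

/-- The condition on the triple `(n, k, s)`. Write `s = n m + t` with `0 ≤ t < n`. If `t < ⌊n/2⌋`:
`k ≤ m (2 m - 1)`, or `m` and `k` are even and `k ≤ 2 m²`, or `m` is odd, `k ≡ 2 (mod 4)` and
`k ≤ 2 m²`. If `t ≥ ⌊n/2⌋`: `k ≤ 2 m² + 2 m`, or `n` is odd, `t = n - 1` and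
`k = 2 m² + 2 m + 1`. -/
def Good (n k s : ℕ) : Prop :=
  ∃ m t : ℕ, s = n * m + t ∧ t < n ∧
    ((t < n / 2 ∧ (k ≤ m * (2 * m - 1) ∨ (Even m ∧ Even k ∧ k ≤ 2 * m ^ 2) ∨
        (Odd m ∧ k % 4 = 2 ∧ k ≤ 2 * m ^ 2))) ∨
      (n / 2 ≤ t ∧ (k ≤ 2 * m ^ 2 + 2 * m ∨
        (Odd n ∧ t = n - 1 ∧ k = 2 * m ^ 2 + 2 * m + 1))))

theorem good_iff (n k s : ℕ) (hn : 2 ≤ n) : Good n k s ↔ R159.RankTwo.Crit n k s := by
  unfold Good R159.RankTwo.Crit
  constructor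
  · rintro ⟨m, t, hs, ht, h⟩
    have h1 : s / n = m := by
      rw [hs, Nat.mul_add_div (by omega), Nat.div_eq_of_lt ht, add_zero]
    have h2 : s % n = t := by
      rw [hs, Nat.mul_add_mod, Nat.mod_eq_of_lt ht]
    rw [h1, h2]
    rcases h with h | ⟨h3, h4 | h4⟩
    · exact Or.inl h
    · exact Or.inr (Or.inl ⟨h3, h4⟩)
    · exact Or.inr (Or.inr h4)
  · intro h
    refine ⟨s / n, s % n, (Nat.div_add_mod s n).symm, Nat.mod_lt _ (by omega), ?_⟩
    rcases h with h | ⟨h3, h4⟩ | ⟨h3, h4, h5⟩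
    · exact Or.inl h
    · exact Or.inr ⟨h3, Or.inl h4⟩
    · exact Or.inr ⟨by omega, Or.inr ⟨h3, h4, h5⟩⟩

theorem phi_eq {G : Type*} [AddCommGroup G] (s : ℕ) : phi G s = R159.RankTwo.phi G s := by
  unfold phi R159.RankTwo.phi
  congr 1
  ext m
  constructor
  · rintro ⟨A, hA, h⟩
    refine ⟨A, hA, fun g => ?_⟩
    have : g ∈ signedSums s A := by rw [h]; exact Set.mem_univ g
    exact this
  · rintro ⟨A, hA, h⟩
    exact ⟨A, hA, Set.eq_univ_of_forall h⟩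

/-- Let `n ≥ 2` and `k ≥ 1`, and let `G` be isomorphic to `ℤ_n × ℤ_{nk}` (every finite abelian group
of rank two is of this form for exactly one pair `(n, k)`). Then `φ_±(G,[0,s]) = 2` if and only if
`Good n k s`. -/
theorem result (n k s : ℕ) (hn : 2 ≤ n) (hk : 1 ≤ k) (G : Type*) [AddCommGroup G]
    (e : G ≃+ ZMod n × ZMod (n * k)) : phi G s = 2 ↔ Good n k s := by
  rw [phi_eq, good_iff n k s hn]
  exact R159.RankTwo.phi_eq_two_iff n k s hn hk e

end Pool.Agent.Results.MP_b53101_co.RankTwoCriterion
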